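import Pool.Agent.Y957.MC.Flw1
import Pool.Agent.Y957.MC.Spec2

/-! Smooth coboundaries along a flow over boxes (adapted from `Pool/Agent/Y957/MC/Flw1.lean`). -/

set_option autoImplicit false

namespace Pool.Agent.Y79.MC

open MeasureTheory Filter Finset
open Pool.Agent.Y48.MC (orb_meas orb_int orb_bd orb_shift smo_meas smo_bd)
open Pool.Agent.Y957.MC

universe u

theorem flw1c (h : S_NICEC.{u}) : S_FLW1C.{u} := by
  intro kk c i hc X _ μ _ τ g hτ hg hgb δ S hδ hS
  obtain ⟨C, hC⟩ := hgb
  obtain ⟨x0⟩ : Nonempty X := by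
    by_contra hne
    rw [not_nonempty_iff] at hne
    have := measure_univ (μ := μ)
    rw [Set.eq_empty_of_isEmpty (Set.univ : Set X), measure_empty] at this
    exact zero_ne_one this
  have hC0 : 0 ≤ C := (abs_nonneg _).trans (hC x0)
  set D : ℝ := 2 * C + 1 with hD
  have hD0 : 0 < D := by positivity
  set k : X → ℝ := smo τ g δ with hk
  have hkm : Measurable k := smo_meas hτ hg hδ.le
  have hkb : ∀ x, |k x| ≤ C := smo_bd hC0 hC hδ.le
  set f : X → ℝ := fun x => k x - smo τ k S x with hf
  have hfm : Measurable f := hkm.sub (smo_meas hτ hkm hS.le)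
  have hfb : ∀ x, |f x| ≤ 2 * C := by
    intro x
    have h1 := hkb x
    have h2 := smo_bd (τ := τ) hC0 hkb hS.le x
    calc |f x| ≤ |k x| + |smo τ k S x| := abs_sub _ _
      _ ≤ 2 * C := by linarith
  set L : ℝ := 2 * C / δ + 2 * C / S with hL
  have hL0 : 0 ≤ L := by positivity
  have hlip : ∀ x u v, |f (τ u x) - f (τ v x)| ≤ L * |u - v| := by
    intro x u v
    have h1 := smo_lip hτ hg hC hδ x u v
    have h2 := smo_lip hτ hkm hkb hS x u v
    have e : f (τ u x) - f (τ v x) = (smo τ g δ (τ u x) - smo τ g δ (τ v x)) -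
        (smo τ k S (τ u x) - smo τ k S (τ v x)) := by simp only [hf, hk]; ring
    rw [e]
    calc _ ≤ 2 * C / δ * |u - v| + 2 * C / S * |u - v| := (abs_sub _ _).trans (add_le_add h1 h2)
      _ = _ := by ring
  set F : X → ℝ → ℂ := fun x u => ((f (τ u x) / D : ℝ) : ℂ) with hF
  have hnorm : ∀ x u, ‖F x u‖ = |f (τ u x)| / D := by
    intro x u
    simp only [hF]
    rw [Complex.norm_real, Real.norm_eq_abs, abs_div, abs_of_pos hD0]
  have hstat : Stat μ (τ 1) F := by
    refine ⟨hτ.mp 1, ?_, ?_, ?_⟩
    · have h1 : Measurable fun q : X × ℝ => f (τ q.2 q.1) := hfm.comp (hτ.meas.comp measurable_swap)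
      exact Complex.measurable_ofReal.comp (h1.div_const D)
    · intro x v
      rw [hnorm, div_le_one hD0]
      exact (hfb _).trans (by rw [hD]; linarith)
    · intro x v _
      simp only [hF]
      rw [hτ.add]
  have hnice : Nice μ (τ 1) F := by
    refine ⟨hstat, ⟨2 * C * S / D, ?_⟩, ?_⟩
    · intro x v hv
      have e : ∫ s in (0 : ℝ)..v, F x s = (((∫ s in (0 : ℝ)..v, (k (τ s x) - smo τ k S (τ s x))) / D : ℝ) : ℂ) := by
        simp only [hF, hf]
        rw [intervalIntegral.integral_ofReal, intervalIntegral.integral_div]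
      rw [e, Complex.norm_real, Real.norm_eq_abs, abs_div, abs_of_pos hD0]
      have := prim_bd hτ hkm hkb hS x hv
      gcongr
    · intro Λ hΛ
      refine ⟨L / D * (2 * Real.exp Λ) * Λ, fun x M hM t ht0 ht1 => ?_⟩
      have h1 : ‖∫ s in (0 : ℝ)..Λ, ‖F x (M * Real.exp (s + t)) - F x (M * Real.exp s)‖‖ ≤
          (L / D * (2 * Real.exp Λ) * M * t) * |Λ - 0| := by
        refine intervalIntegral.norm_integral_le_of_norm_le_const fun s hs => ?_
        rw [Set.uIoc_of_le (by linarith)] at hs
        rw [norm_norm]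
        have e1 : F x (M * Real.exp (s + t)) - F x (M * Real.exp s) =
            (((f (τ (M * Real.exp (s + t)) x) - f (τ (M * Real.exp s) x)) / D : ℝ) : ℂ) := by
          simp only [hF]; push_cast; ring
        rw [e1, Complex.norm_real, Real.norm_eq_abs, abs_div, abs_of_pos hD0]
        have h2 := hlip x (M * Real.exp (s + t)) (M * Real.exp s)
        have h3 : |M * Real.exp (s + t) - M * Real.exp s| ≤ M * Real.exp Λ * (2 * t) := by
          have e2 : M * Real.exp (s + t) - M * Real.exp s = M * Real.exp s * (Real.exp t - 1) := by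
            rw [Real.exp_add]; ring
          have h4 : Real.exp t - 1 ≤ 2 * t := by
            have h5 : |Real.exp t - 1 - t| ≤ t ^ 2 := Real.abs_exp_sub_one_sub_id_le (by rw [abs_of_pos ht0]; exact ht1)
            have h6 := (abs_le.mp h5).2
            nlinarith
          have h5 : 0 ≤ Real.exp t - 1 := by
            have := Real.add_one_le_exp t; linarith
          rw [e2, abs_of_nonneg (by positivity)]
          have h6 : Real.exp s ≤ Real.exp Λ := Real.exp_le_exp.mpr hs.2
          gcongr
        calc |f (τ (M * Real.exp (s + t)) x) - f (τ (M * Real.exp s) x)| / D ≤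
              (L * (M * Real.exp Λ * (2 * t))) / D := by
              gcongr
              exact h2.trans (by gcongr)
          _ = _ := by ring
      rw [sub_zero, abs_of_pos (by linarith : 0 < Λ)] at h1
      calc _ ≤ ‖∫ s in (0 : ℝ)..Λ, ‖F x (M * Real.exp (s + t)) - F x (M * Real.exp s)‖‖ := Real.le_norm_self _
        _ ≤ _ := h1
        _ = _ := by ring
  have hmain := h kk c i hc X μ (τ 1) F hnice
  filter_upwards [hmain] with x hx B hB
  filter_upwards [hx B hB] with a ha
  intro ε hε
  obtain ⟨N₀, hN⟩ := ha (ε / D) (by positivity)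
  refine ⟨N₀, fun M h1 h2 => ?_⟩
  have h3 := hN M h1 h2
  have hDc : (D : ℂ) ≠ 0 := by exact_mod_cast hD0.ne'
  have h5 : ∀ m : Fin kk → ℕ, (if 0 < lin c m then B m *
      (((k (τ (a * lin c m) x) - smo τ k S (τ (a * lin c m) x) : ℝ)) : ℂ) else 0) =
      (D : ℂ) * (if 0 < lin c m then B m * F x (a * lin c m) else 0) := by
    intro m
    by_cases hm : 0 < lin c m
    · rw [if_pos hm, if_pos hm]
      simp only [hF, hf]
      push_cast
      field_simp
    · rw [if_neg hm, if_neg hm, mul_zero]
  have h4 : bavg M (fun m => if 0 < lin c m then B m *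
      (((k (τ (a * lin c m) x) - smo τ k S (τ (a * lin c m) x) : ℝ)) : ℂ) else 0) =
      (D : ℂ) * bavg M (fun m => if 0 < lin c m then B m * F x (a * lin c m) else 0) := by
    have h6 : (fun m : Fin kk → ℕ => (if 0 < lin c m then B m *
      (((k (τ (a * lin c m) x) - smo τ k S (τ (a * lin c m) x) : ℝ)) : ℂ) else 0)) =
      fun m => (D : ℂ) * (if 0 < lin c m then B m * F x (a * lin c m) else 0) := funext h5
    rw [h6]
    unfold bavg
    rw [← Finset.mul_sum]
    ring
  show ‖bavg M (fun m => if 0 < lin c m then B m *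
      (((k (τ (a * lin c m) x) - smo τ k S (τ (a * lin c m) x) : ℝ)) : ℂ) else 0)‖ ≤ ε
  rw [h4, norm_mul, Complex.norm_real, Real.norm_eq_abs, abs_of_pos hD0]
  calc D * ‖bavg M (fun m => if 0 < lin c m then B m * F x (a * lin c m) else 0)‖ ≤ D * (ε / D) := by
        gcongr
    _ = ε := by field_simp

end Pool.Agent.Y79.MC
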